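import Pool.Agent.TH289.K.B3
import Pool.Agent.TH289.L.Def

/-!
# Open semiconjugacies with one finite fibre to an expansive transitive map are locally injective
(job 1513, by helper209 for helper289)
-/

set_option autoImplicit false
set_option linter.unusedSectionVars false

open Filter Topology Set Metric unitInterval

namespace Pool.Agent.TH209.L289

open Pool.Agent.H721R2 Pool.Agent.H789R2.AN Pool.Agent.H789R2.GP Pool.Agent.TH289 Pool.Agent.TH289.K
open Pool.Agent.TH289.L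

/-! ### Dense orbits -/

theorem trans_symm {Y : Type*} [MetricSpace Y] {f : Y ≃ₜ Y} (ht : TopTransitive f) :
    TopTransitive f.symm := by
  intro U V hU hUn hV hVn
  obtain ⟨n, y, ⟨x, hx, rfl⟩, hy⟩ := ht V U hV hVn hU hUn
  exact ⟨n, x, ⟨f^[n] x, hy, iterL f n x⟩, hx⟩

theorem trans_dense {Y : Type*} [MetricSpace Y] [CompactSpace Y] {f : Y ≃ₜ Y}
    (ht : TopTransitive f) {O : Set Y} (hO : IsOpen O) (hOn : O.Nonempty) :
    ∃ y ∈ O, ∀ V : Set Y, IsOpen V → V.Nonempty → ∀ m : ℕ, ∃ n ≥ m, f^[n] y ∈ V := by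
  have hcb : (TopologicalSpace.countableBasis Y).Countable :=
    TopologicalSpace.countable_countableBasis Y
  have hcount : Countable (TopologicalSpace.countableBasis Y) := hcb.to_subtype
  set G : (TopologicalSpace.countableBasis Y) × ℕ → Set Y :=
    fun i => ⋃ n : ℕ, ⋃ _ : i.2 ≤ n, (f^[n]) ⁻¹' (i.1 : Set Y) with hG
  have hopen : ∀ i, IsOpen (G i) := by
    intro i
    refine isOpen_iUnion fun n => isOpen_iUnion fun _ => ?_
    exact (TopologicalSpace.isOpen_of_mem_countableBasis i.1.2).preimage (f.continuous.iterate n)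
  have hdense : ∀ i, Dense (G i) := by
    intro i
    rw [dense_iff_inter_open]
    intro U hU hUn
    have hi := TopologicalSpace.isOpen_of_mem_countableBasis i.1.2
    have hin := TopologicalSpace.nonempty_of_mem_countableBasis i.1.2
    have hsurj : Function.Surjective (f^[i.2]) := f.surjective.iterate _
    obtain ⟨n, y, ⟨x, hx, rfl⟩, hy⟩ := ht U ((f^[i.2]) ⁻¹' (i.1 : Set Y)) hU hUn
      (hi.preimage (f.continuous.iterate _)) (hin.preimage hsurj)
    refine ⟨x, hx, mem_iUnion.2 ⟨i.2 + n, mem_iUnion.2 ⟨Nat.le_add_right _ _, ?_⟩⟩⟩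
    rw [mem_preimage, Function.iterate_add_apply]
    exact hy
  have hd := dense_iInter_of_isOpen hopen hdense
  obtain ⟨y, hy, hy2⟩ := (dense_iff_inter_open.1 hd) O hO hOn
  refine ⟨y, hy, fun V hV hVn m => ?_⟩
  obtain ⟨v, hv⟩ := hVn
  obtain ⟨B, hB, hvB, hBV⟩ :=
    (TopologicalSpace.isBasis_countableBasis Y).exists_subset_of_mem_open hv hV
  have h1 := mem_iInter.1 hy2 (⟨B, hB⟩, m)
  obtain ⟨n, h2⟩ := mem_iUnion.1 h1
  obtain ⟨hn, h3⟩ := mem_iUnion.1 h2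
  exact ⟨n, hn, hBV h3⟩

/-! ### Lower semicontinuity of the number of points in the fibres -/

section fib

variable {X Y : Type*} [MetricSpace X] [MetricSpace Y] {h : X → Y}

theorem lsc (ho : IsOpenMap h) {y : Y} (F : Finset X) (hF : ∀ x ∈ F, h x = y) :
    ∃ r > 0, (∀ x ∈ F, ∀ x' ∈ F, ∀ z, dist z x < r → dist z x' < r → x = x') ∧
      ∃ O : Set Y, IsOpen O ∧ y ∈ O ∧ ∀ y' ∈ O, ∀ x ∈ F, ∃ x', dist x' x < r ∧ h x' = y' := by
  have h1 : ∀ᶠ r : ℝ in 𝓝[>] 0, ∀ x ∈ F, ∀ x' ∈ F, x ≠ x' → 2 * r < dist x x' := by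
    rw [Filter.eventually_all_finset]
    intro x _
    rw [Filter.eventually_all_finset]
    intro x' _
    by_cases hx : x = x'
    · exact Eventually.of_forall fun r h => absurd hx h
    · have hd : 0 < dist x x' := dist_pos.2 hx
      filter_upwards [Ioo_mem_nhdsGT (half_pos hd)] with r hr _
      linarith [hr.2]
  obtain ⟨r, hr1, hr2⟩ := (h1.and self_mem_nhdsWithin).exists
  refine ⟨r, hr2, ?_, ⋂ x ∈ F, h '' ball x r, ?_, ?_, ?_⟩
  · intro x hx x' hx' z hz hz'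
    by_contra hne
    have := hr1 x hx x' hx' hne
    have := dist_triangle_left x x' z
    linarith
  · exact isOpen_biInter_finset fun x _ => ho _ isOpen_ball
  · rw [mem_iInter₂]
    intro x hx
    exact ⟨x, mem_ball_self hr2, hF x hx⟩
  · intro y' hy' x hx
    rw [mem_iInter₂] at hy'
    obtain ⟨x', h2, h3⟩ := hy' x hx
    exact ⟨x', h2, h3⟩

/-- the fibres have at most as many points as the fibre of a point with dense two-sided orbit -/
theorem fib_le {f : X ≃ₜ X} {f' : Y ≃ₜ Y} (H : SC f f' h) (ho : IsOpenMap h) {y₀ : Y}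
    (hy₀ : (h ⁻¹' {y₀}).Finite) (hd : Dense {z | ∃ n : ℕ, f'^[n] y₀ = z ∨ f'^[n] z = y₀})
    {y : Y} (F : Finset X) (hF : ∀ x ∈ F, h x = y) : F.card ≤ (h ⁻¹' {y₀}).ncard := by
  classical
  obtain ⟨r, hr, hsep, O, hO, hyO, hlift⟩ := lsc ho F hF
  obtain ⟨z, hzO, n, hz⟩ := (dense_iff_inter_open.1 hd) O hO ⟨y, hyO⟩
  have h1 : ∀ x : F, ∃ x', dist x' x.1 < r ∧ h x' = z := fun x => hlift z hzO x.1 x.2
  choose φ hφ1 hφ2 using h1
  have hφ : Function.Injective φ := by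
    intro x x' hxx
    apply Subtype.ext
    exact hsep x.1 x.2 x'.1 x'.2 (φ x) (hφ1 x) (by rw [hxx]; exact hφ1 x')
  have key : ∃ ψ : X → X, Function.Injective ψ ∧ ∀ x, h x = z → h (ψ x) = y₀ := by
    rcases hz with hz | hz
    · refine ⟨f.symm^[n], (f.symm.injective.iterate n), fun x hx => ?_⟩
      rw [H.iter', hx, ← hz, iterL]
    · refine ⟨f^[n], (f.injective.iterate n), fun x hx => ?_⟩
      rw [H.iter, hx, hz]
  obtain ⟨ψ, hψ, hψ2⟩ := key
  have h2 : (Set.range (ψ ∘ φ)) ⊆ h ⁻¹' {y₀} := by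
    rintro _ ⟨x, rfl⟩
    exact hψ2 _ (hφ2 x)
  have h3 := Set.ncard_le_ncard h2 hy₀
  have h4 : (Set.range (ψ ∘ φ)).ncard = F.card := by
    rw [← Set.image_univ, Set.ncard_image_of_injective _ (hψ.comp hφ), Set.ncard_univ,
      Nat.card_eq_fintype_card, Fintype.card_coe]
  omega

theorem fib_fin {f : X ≃ₜ X} {f' : Y ≃ₜ Y} (H : SC f f' h) (ho : IsOpenMap h) {y₀ : Y}
    (hy₀ : (h ⁻¹' {y₀}).Finite) (hd : Dense {z | ∃ n : ℕ, f'^[n] y₀ = z ∨ f'^[n] z = y₀})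
    (y : Y) : (h ⁻¹' {y}).Finite ∧ (h ⁻¹' {y}).ncard ≤ (h ⁻¹' {y₀}).ncard := by
  have hfin : (h ⁻¹' {y}).Finite := by
    by_contra hinf
    obtain ⟨F, hF1, hF2⟩ := Set.Infinite.exists_subset_card_eq hinf ((h ⁻¹' {y₀}).ncard + 1)
    have := fib_le H ho hy₀ hd F (fun x hx => hF1 hx)
    omega
  refine ⟨hfin, ?_⟩
  rw [Set.ncard_eq_toFinset_card _ hfin]
  exact fib_le H ho hy₀ hd hfin.toFinset (fun x hx => by simpa using hx)

end fib

/-! ### The bad set -/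

section bad

variable {X Y : Type*} [MetricSpace X] [MetricSpace Y]

/-- the points near which there are pairs with the same image on local unstable leaves -/
def Bu (g : X ≃ₜ X) (h : X → Y) : Set X :=
  {x | ∀ δ > 0, ∃ x₁ x₂, dist x x₁ < δ ∧ x₁ ≠ x₂ ∧ SR g.symm δ x₁ x₂ ∧ h x₁ = h x₂}

theorem Bu_closed (g : X ≃ₜ X) (h : X → Y) : IsClosed (Bu g h) := by
  rw [← closure_subset_iff_isClosed]
  intro x hx δ hδ
  obtain ⟨x', hx', hd⟩ := Metric.mem_closure_iff.1 hx (δ / 2) (half_pos hδ)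
  obtain ⟨x₁, x₂, h1, h2, h3, h4⟩ := hx' (δ / 2) (half_pos hδ)
  refine ⟨x₁, x₂, ?_, h2, h3.mono (half_le_self hδ.le), h4⟩
  have := dist_triangle x x' x₁
  linarith

theorem Bu_map [CompactSpace X] {g φ : X ≃ₜ X} {ψ : Y → Y} {h : X → Y}
    (hc : ∀ x, φ (g.symm x) = g.symm (φ x)) (hh : ∀ x, h (φ x) = ψ (h x)) {x : X}
    (hx : x ∈ Bu g h) : φ x ∈ Bu g h := by
  intro δ hδ
  obtain ⟨η, hη, h1⟩ := map_SM hc δ hδ
  have hu : UniformContinuous φ := CompactSpace.uniformContinuous_of_continuous φ.continuous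
  obtain ⟨η', hη', h2⟩ := Metric.uniformContinuous_iff.1 hu δ hδ
  obtain ⟨x₁, x₂, a1, a2, a3, a4⟩ := hx (min η η') (lt_min hη hη')
  refine ⟨φ x₁, φ x₂, h2 (a1.trans_le (min_le_right _ _)), fun he => a2 (φ.injective he),
    h1 _ _ (a3.mono (min_le_left _ _)), ?_⟩
  rw [hh, hh, a4]

theorem Bu_sat [CompactSpace X] [CompactSpace Y] {g : X ≃ₜ X} {c : ℝ} (hg : LP g c) {k : Y ≃ₜ Y}
    {h : X → Y} (H : SC g k h) {e : ℝ} (he0 : 0 < e) (hexp : Exp k e) :
    ∃ ε₀ > 0, ∀ x ∈ Bu g h, ∀ z, SR g ε₀ x z → z ∈ Bu g h := by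
  obtain ⟨br, δ, hδ, hbr, hsmall, huniq, hunif⟩ := exists_br hg
  have hc := hg.c_pos
  obtain ⟨dS, hdS, hS⟩ := H.mapS (half_pos he0)
  obtain ⟨dU, hdU, hU⟩ := H.mapU he0
  obtain ⟨η2, hη2, hs2⟩ := hsmall dS hdS
  refine ⟨min (c / 3) (min (δ / 3) (η2 / 3)), by positivity, fun x hx z hxz => ?_⟩
  have hc1 : SR g (c / 3) x z := hxz.mono (min_le_left _ _)
  have hdz : dist x z ≤ min (δ / 3) (η2 / 3) := (hxz 0).trans (min_le_right _ _)
  have hdz1 : dist x z ≤ δ / 3 := hdz.trans (min_le_left _ _)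
  have hdz2 : dist x z ≤ η2 / 3 := hdz.trans (min_le_right _ _)
  have hxzb : z = br x z := huniq x z z (by linarith) hc1 (SR_zero (by linarith))
  intro δ' hδ'
  obtain ⟨η5, hη5, h5⟩ := Pool.Agent.W740.TC.SR_of_dist hg.symm (lt_min hδ' hdU)
  have hε' : 0 < min δ' (η5 / 2) := lt_min hδ' (half_pos hη5)
  obtain ⟨η4, hη4, h4⟩ := hunif _ hε'
  have hρ : 0 < min (min c (δ / 3)) (min (η2 / 3) (η4 / 2)) :=
    lt_min (lt_min hc (by linarith)) (lt_min (by linarith) (by linarith))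
  obtain ⟨x₁, x₂, a1, a2, a3, a4⟩ := hx _ hρ
  set ρ := min (min c (δ / 3)) (min (η2 / 3) (η4 / 2)) with hρd
  have ρ1 : ρ ≤ c := (min_le_left _ _).trans (min_le_left _ _)
  have ρ2 : ρ ≤ δ / 3 := (min_le_left _ _).trans (min_le_right _ _)
  have ρ3 : ρ ≤ η2 / 3 := (min_le_right _ _).trans (min_le_left _ _)
  have ρ4 : ρ ≤ η4 / 2 := (min_le_right _ _).trans (min_le_right _ _)
  have a30 : dist x₁ x₂ ≤ ρ := a3 0
  have d1 : dist x₁ z < ρ + dist x z := by
    have := dist_triangle_left x₁ z x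
    linarith
  have d2 : dist x₂ z < 2 * ρ + dist x z := by
    have := dist_triangle_left x₂ z x₁
    linarith
  have dx2 : dist x x₂ < 2 * ρ := by
    have := dist_triangle x x₁ x₂
    linarith
  have b1 := hbr x₁ z (by linarith)
  have b2 := hbr x₂ z (by linarith)
  have c1 := hs2 x₁ z (by linarith)
  have c2 := hs2 x₂ z (by linarith)
  have e1 : dist z (br x₁ z) < min δ' (η5 / 2) := by
    have := h4 x x₁ z z (by linarith) (by linarith) (by linarith) (by rw [dist_self]; exact hη4)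
    rwa [← hxzb] at this
  have e2 : dist z (br x₂ z) < min δ' (η5 / 2) := by
    have := h4 x x₂ z z (by linarith) (by linarith) (by linarith) (by rw [dist_self]; exact hη4)
    rwa [← hxzb] at this
  have hS12 : SR g.symm (min δ' dU) (br x₁ z) (br x₂ z) := by
    apply h5
    · exact (b1.2.symm'.tr b2.2).mono (by linarith)
    · have := dist_triangle_left (br x₁ z) (br x₂ z) z
      have f1 := e1.trans_le (min_le_right _ _)
      have f2 := e2.trans_le (min_le_right _ _)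
      linarith
  refine ⟨br x₁ z, br x₂ z, e1.trans_le (min_le_left _ _), ?_, hS12.mono (min_le_left _ _), ?_⟩
  · intro he
    apply a2
    refine Pool.Agent.H789R2.GP.expansive hg ?_ (a3.mono ρ1)
    have := b2.1
    rw [← he] at this
    exact (b1.1.tr this.symm').mono (by linarith)
  · refine hexp _ _ ?_ (hU _ _ (hS12.mono (min_le_right _ _)))
    have g1 := hS _ _ c1.1
    have g2 := hS _ _ c2.1
    rw [a4] at g1
    have := g1.symm'.tr g2
    rwa [add_halves] at this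

theorem back_asym [CompactSpace X] {f : X ≃ₜ X} {N : ℕ} (hN : 1 ≤ N) {c : ℝ}
    (hg : LP (iterHomeo f N) c) {z w : X} (hzw : SR (iterHomeo f N).symm c z w) {η : ℝ}
    (hη : 0 < η) : ∃ M : ℕ, ∀ n ≥ M, dist (f.symm^[n] z) (f.symm^[n] w) < η := by
  obtain ⟨η', hη', h1⟩ := T1_unif f.symm N hη
  have h2 : WS (iterHomeo f N).symm z w := WS.of_SR (hg.cU _ _ hzw)
  obtain ⟨m, hm⟩ := h2.eventually_lt hη'
  refine ⟨N * m, fun n hn => ?_⟩
  have hnn : n = n % N + N * (n / N) := (Nat.mod_add_div n N).symm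
  have hq : m ≤ n / N := (Nat.le_div_iff_mul_le (by omega)).2 (by rw [Nat.mul_comm]; exact hn)
  have h3 := hm _ hq
  rw [iterHomeo_symm_iter, iterHomeo_symm_iter] at h3
  rw [hnn, Function.iterate_add_apply, Function.iterate_add_apply]
  exact h1 _ (Nat.mod_lt _ (by omega)).le _ _ h3

/-- no pairs on small unstable leaves -/
theorem core [CompactSpace X] [CompactSpace Y] {f : X ≃ₜ X} {f' : Y ≃ₜ Y} {N : ℕ}
    (hN : 1 ≤ N) {c : ℝ} (hg : LP (iterHomeo f N) c) {h : X → Y} (H : SC f f' h) {e : ℝ}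
    (he0 : 0 < e) (hexp : Exp (iterHomeo f' N) e) (ho : IsOpenMap h)
    (htr : ∀ O : Set Y, IsOpen O → O.Nonempty → ∃ y ∈ O, ∀ V : Set Y, IsOpen V → V.Nonempty →
      ∀ m : ℕ, ∃ n ≥ m, f'.symm^[n] y ∈ V)
    {y₁ : Y} (hfin : ∀ y, (h ⁻¹' {y}).Finite)
    (hmax : ∀ y, (h ⁻¹' {y}).ncard ≤ (h ⁻¹' {y₁}).ncard) :
    ∃ δ > 0, ∀ x₁ x₂, SR (iterHomeo f N).symm δ x₁ x₂ → h x₁ = h x₂ → x₁ = x₂ := by
  by_contra hcon
  push Not at hcon
  set g := iterHomeo f N with hgd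
  have Hg : SC g (iterHomeo f' N) h := ⟨H.cont, fun x => by
    rw [hgd, iterHomeo_apply, iterHomeo_apply, H.iter]⟩
  -- the bad set is nonempty
  obtain ⟨b, hb⟩ : (Bu g h).Nonempty := by
    have h1 : ∀ n : ℕ, ∃ x₁ x₂, SR g.symm (1 / ((n : ℝ) + 1)) x₁ x₂ ∧ h x₁ = h x₂ ∧ x₁ ≠ x₂ :=
      fun n => hcon _ (by positivity)
    choose a a' ha1 ha2 ha3 using h1
    obtain ⟨b, -, φ, hφ, hlim⟩ := isCompact_univ.tendsto_subseq (x := a) (fun n => mem_univ _)
    refine ⟨b, fun δ hδ => ?_⟩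
    have h2 : ∀ᶠ n in atTop, dist (a (φ n)) b < δ := (Metric.tendsto_nhds.1 hlim) δ hδ
    have h3 : ∀ᶠ n : ℕ in atTop, 1 / (((φ n : ℕ) : ℝ) + 1) < δ := by
      have := (tendsto_one_div_add_atTop_nhds_zero_nat (𝕜 := ℝ)).comp hφ.tendsto_atTop
      exact (tendsto_order.1 this).2 δ hδ
    obtain ⟨n, hn1, hn2⟩ := (h2.and h3).exists
    exact ⟨a (φ n), a' (φ n), by rwa [dist_comm], ha3 _, (ha1 _).mono hn2.le, ha2 _⟩
  obtain ⟨ε₀, hε₀, hsat⟩ := Bu_sat hg Hg he0 hexp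
  obtain ⟨br, δ, hδ, hbr, hsmall, -, -⟩ := exists_br hg
  have hc := hg.c_pos
  -- invariance
  have hinv : ∀ n : ℕ, ∀ x ∈ Bu g h, f.symm^[n] x ∈ Bu g h := by
    intro n
    induction n with
    | zero => exact fun x hx => hx
    | succ n ih =>
      intro x hx
      rw [Function.iterate_succ_apply']
      refine Bu_map (φ := f.symm) (ψ := f'.symm) ?_ H.symm.comm (ih x hx)
      intro x
      have e1 : ∀ x, g.symm x = f.symm^[N] x := fun x => iterHomeo_symm_apply f N x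
      rw [e1, e1, ← Function.iterate_succ_apply, Function.iterate_succ_apply']
  -- the image of the bad set is everything
  have himg : ∀ y, y ∈ h '' Bu g h := by
    have hcl : IsClosed (h '' Bu g h) := ((Bu_closed g h).isCompact.image H.cont).isClosed
    obtain ⟨η, hη, hη2⟩ := hsmall (min ε₀ c) (lt_min hε₀ hc)
    obtain ⟨y, hy, hyd⟩ := htr (h '' ball b η) (ho _ isOpen_ball) ⟨h b, b, mem_ball_self hη, rfl⟩
    obtain ⟨z, hz, rfl⟩ := hy
    obtain ⟨k1, k2⟩ := hη2 b z (by rw [dist_comm]; exact hz)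
    have hw : br b z ∈ Bu g h := hsat b hb _ (k1.mono (min_le_left _ _))
    intro y'
    rw [← hcl.closure_eq, Metric.mem_closure_iff]
    intro ε hε
    have hu := CompactSpace.uniformContinuous_of_continuous H.cont
    obtain ⟨η', hη', h6⟩ := Metric.uniformContinuous_iff.1 hu (ε / 2) (half_pos hε)
    obtain ⟨M, hM⟩ := back_asym hN hg (k2.mono (min_le_right _ _)) hη'
    obtain ⟨n, hn, hn2⟩ := hyd (ball y' (ε / 2)) isOpen_ball ⟨y', mem_ball_self (half_pos hε)⟩ M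
    refine ⟨h (f.symm^[n] (br b z)), ⟨_, hinv n _ hw, rfl⟩, ?_⟩
    have h7 := h6 (hM n hn)
    rw [← H.iter'] at hn2
    rw [mem_ball, dist_comm] at hn2
    have := dist_triangle y' (h (f.symm^[n] z)) (h (f.symm^[n] (br b z)))
    linarith
  -- counting
  obtain ⟨x, hx, hxy⟩ := himg y₁
  obtain ⟨r, hr, hsep, O, hO, hyO, hlift⟩ := lsc ho (hfin y₁).toFinset (y := y₁)
    (fun x hx => by simpa using hx)
  have hxF : x ∈ (hfin y₁).toFinset := by simpa using hxy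
  have hOx : h ⁻¹' O ∈ 𝓝 x := (hO.preimage H.cont).mem_nhds (by rw [mem_preimage, hxy]; exact hyO)
  obtain ⟨d, hd, hdO⟩ := Metric.mem_nhds_iff.1 hOx
  obtain ⟨x₁, x₂, a1, a2, a3, a4⟩ := hx (min d (r / 2)) (lt_min hd (half_pos hr))
  have a30 : dist x₁ x₂ ≤ r / 2 := (a3 0).trans (min_le_right _ _)
  have a11 : dist x x₁ < r / 2 := a1.trans_le (min_le_right _ _)
  have hx1r : dist x₁ x < r := by rw [dist_comm]; linarith
  have hx2r : dist x₂ x < r := by
    have := dist_triangle_left x₂ x x₁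
    rw [dist_comm] at a11
    linarith
  have hx1O : h x₁ ∈ O := by
    apply hdO
    rw [mem_ball, dist_comm]
    exact a1.trans_le (min_le_left _ _)
  classical
  have h8 : ∀ u : (hfin y₁).toFinset, ∃ u', dist u' u.1 < r ∧ h u' = h x₁ ∧ (u.1 = x → u' = x₁) := by
    intro u
    by_cases hu : u.1 = x
    · exact ⟨x₁, by rw [hu]; exact hx1r, rfl, fun _ => rfl⟩
    · obtain ⟨u', h9, h10⟩ := hlift _ hx1O u.1 u.2
      exact ⟨u', h9, h10, fun h => absurd h hu⟩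
  choose φ hφ1 hφ2 hφ3 using h8
  have hφ : Function.Injective φ := by
    intro u u' huu
    apply Subtype.ext
    exact hsep u.1 u.2 u'.1 u'.2 (φ u) (hφ1 u) (by rw [huu]; exact hφ1 u')
  have h9 : Set.range φ ⊆ h ⁻¹' {h x₁} := by
    rintro _ ⟨u, rfl⟩
    exact hφ2 u
  have h10 : (Set.range φ).ncard = (h ⁻¹' {y₁}).ncard := by
    rw [← Set.image_univ, Set.ncard_image_of_injective _ hφ, Set.ncard_univ,
      Nat.card_eq_fintype_card, Fintype.card_coe, Set.ncard_eq_toFinset_card _ (hfin y₁)]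
  have h11 : Set.range φ = h ⁻¹' {h x₁} :=
    Set.eq_of_subset_of_ncard_le h9 (by rw [h10]; exact hmax _) (hfin _)
  have h12 : x₂ ∈ Set.range φ := by
    rw [h11]; exact a4.symm
  obtain ⟨u, hu⟩ := h12
  have h13 : u.1 = x := hsep u.1 u.2 x hxF (φ u) (hφ1 u) (by rw [hu]; exact hx2r)
  have h14 := hφ3 u h13
  rw [hu] at h14
  exact a2 h14.symm

end bad

theorem open_local_inj {X Y : Type*} [MetricSpace X] [CompactSpace X] [MetricSpace Y]
    [CompactSpace Y] {f : X ≃ₜ X} {f' : Y ≃ₜ Y} {N : ℕ} (hN : 1 ≤ N) {c : ℝ}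
    (hg : LP (iterHomeo f N) c) {h : X → Y} (H : SC f f' h) {e : ℝ} (he0 : 0 < e)
    (hexp : Exp (iterHomeo f' N) e) (ho : IsOpenMap h) (ht : TopTransitive f')
    {y₀ : Y} (hy₀ : (h ⁻¹' {y₀}).Finite)
    (hd : Dense {z | ∃ n : ℕ, f'^[n] y₀ = z ∨ f'^[n] z = y₀}) :
    ∃ δ > 0, ∀ x y, dist x y < δ → h x = h y → x = y := by
  have Hg : SC (iterHomeo f N) (iterHomeo f' N) h := ⟨H.cont, fun x => by
    rw [iterHomeo_apply, iterHomeo_apply, H.iter]⟩
  have hfin : ∀ y, (h ⁻¹' {y}).Finite := fun y => (fib_fin H ho hy₀ hd y).1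
  have hmax : ∀ y, (h ⁻¹' {y}).ncard ≤ (h ⁻¹' {y₀}).ncard := fun y => (fib_fin H ho hy₀ hd y).2
  obtain ⟨δ₁, hδ₁, h1⟩ := core hN hg H he0 hexp ho
    (fun O hO hOn => trans_dense (trans_symm ht) hO hOn) hfin hmax
  have hg' : LP (iterHomeo f.symm N) c := by
    rw [← iterHomeo_symm]; exact hg.symm
  have hexp' : Exp (iterHomeo f'.symm N) e := by
    rw [← iterHomeo_symm]; exact hexp.symm
  obtain ⟨δ₂, hδ₂, h2⟩ := core hN hg' H.symm he0 hexp' ho
    (fun O hO hOn => trans_dense ht hO hOn) hfin hmax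
  have h2' : ∀ x₁ x₂, SR (iterHomeo f N) δ₂ x₁ x₂ → h x₁ = h x₂ → x₁ = x₂ := by
    intro x₁ x₂ hs
    apply h2
    rw [← iterHomeo_symm]
    exact hs
  obtain ⟨br, δ, hδ, -, hsmall, -, -⟩ := exists_br hg
  obtain ⟨dS, hdS, hS⟩ := Hg.mapS he0
  obtain ⟨dU, hdU, hU⟩ := Hg.mapU he0
  obtain ⟨η, hη, hη2⟩ := hsmall (min (min δ₁ δ₂) (min dS dU))
    (lt_min (lt_min hδ₁ hδ₂) (lt_min hdS hdU))
  refine ⟨η, hη, fun x y hxy hh => ?_⟩
  obtain ⟨k1, k2⟩ := hη2 x y hxy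
  have e1 := hS _ _ (k1.mono ((min_le_right _ _).trans (min_le_left _ _)))
  have e2 := hU _ _ (k2.mono ((min_le_right _ _).trans (min_le_right _ _)))
  rw [← hh] at e2
  have e3 := hexp _ _ e1 e2
  have e4 := h2' _ _ (k1.mono ((min_le_left _ _).trans (min_le_right _ _))) e3
  have e5 := h1 _ _ (k2.mono ((min_le_left _ _).trans (min_le_left _ _))) (hh.symm.trans e3)
  rw [e4]; exact e5.symm

end Pool.Agent.TH209.L289
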